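import Pool.Agent.Helper77.OF4.St

/-!
Project OF4 (MP_7a9ddc_co), module FI: assembly.
-/

set_option autoImplicit false

namespace Pool.Agent.Helper91.OF4.FI

open Equiv Equiv.Perm Pool.Agent.Helper35.PM Pool.Agent.Helper77.HY Pool.Agent.Helper77.OF4

theorem main (hEx : StEx) (hCh : StCh) (hC1 : StC1) (hC3 : StC3) (hCo : StCo) : StFi := by
  classical
  intro V _ G R O hconn htf hO L A hL
  have : Finite G.Dart := by
    refine Finite.of_injective (fun d : G.Dart => d.toProd) ?_
    rintro ⟨a, ha⟩ ⟨b, hb⟩ h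
    change a = b at h
    subst h
    rfl
  have : Nonempty V := hconn.nonempty
  have hC : Conn R.map := by
    intro v w
    have h1 := (SimpleGraph.reachable_iff_reflTransGen v w).1 (hconn.preconnected v w)
    induction h1 with
    | refl => exact Relation.ReflTransGen.refl
    | tail _ h ih => exact ih.tail ⟨⟨(_, _), h⟩, rfl, rfl⟩
  have hG : OG R.map := by
    refine ⟨?_, ?_⟩
    · intro d
      exact d.adj.ne'
    · intro d e f h1 h2 h3
      change d.snd = e.fst at h1
      change e.snd = f.fst at h2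
      change f.snd = d.fst at h3
      refine htf d.fst d.snd e.snd d.adj ?_ ?_
      · rw [h1]
        exact e.adj
      · rw [h2, ← h3]
        exact f.adj.symm
  obtain ⟨W, hW, hCl⟩ := hEx (Nat.card V) V G.Dart R.map le_rfl hC hG ⟨O, hO⟩
  obtain ⟨r', q, hpl, hr, htr, hq1, hq2, hcard⟩ := hCh V G.Dart R.map 4 W hCl
  have hind : ∀ a ∈ W, ∀ b ∈ W, ¬ G.Adj a b := by
    intro a ha b hb h
    exact hW ⟨(a, b), h⟩ ha hb
  have h1 := hC1 V G R 4 W r' q hind hpl hr htr hq1 hcard
  have h3 := hC3 V G W ⟨R⟩ htf h1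
  -- `q` is constant on the darts at a vertex outside `W`
  have hstep : ∀ d : G.Dart, d.fst ∉ W → q (R.r d) = q d := by
    intro d hd
    by_contra hne
    have h4 := hr d hd
    exact hd (hq2 d (by
      rw [h4]
      exact hne))
  have hpow : ∀ (n : ℕ) (d : G.Dart), d.fst ∉ W → ((R.r ^ n) d).fst = d.fst ∧
      q ((R.r ^ n) d) = q d := by
    intro n d hd
    induction n with
    | zero => exact ⟨rfl, rfl⟩
    | succ n ih =>
      rw [pow_succ', Perm.mul_apply]
      refine ⟨(R.fst_r _).trans ih.1, ?_⟩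
      rw [hstep _ (by rw [ih.1]; exact hd), ih.2]
  have hconst : ∀ d d' : G.Dart, d.fst ∉ W → d.fst = d'.fst → q d = q d' := by
    intro d d' hd h
    obtain ⟨n, -, hn⟩ := (R.trans d d' h).exists_pow_eq'
    rw [← hn]
    exact (hpow n d hd).2.symm
  let p : V → Bool := fun v =>
    if h : ∃ d : G.Dart, d.fst = v then decide (q h.choose = 0) else true
  have hp : ∀ d : G.Dart, d.fst ∉ W → p d.fst = decide (q d = 0) := by
    intro d hd
    have hex : ∃ e : G.Dart, e.fst = d.fst := ⟨d, rfl⟩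
    have h4 : p d.fst = decide (q hex.choose = 0) := dif_pos hex
    rw [h4, hconst hex.choose d (by rw [hex.choose_spec]; exact hd) hex.choose_spec]
  refine hCo V G W p hind ?_ h3 L A hL
  intro u v hu hv h
  have h5 := hp ⟨(u, v), h⟩ hu
  have h6 := hp ⟨(v, u), h.symm⟩ hv
  have h7 : q (⟨(v, u), h.symm⟩ : G.Dart) = q ⟨(u, v), h⟩ + 1 := hq1 ⟨(u, v), h⟩
  change p u = _ at h5
  change p v = _ at h6
  rw [h5, h6, h7]
  have key : ∀ z : ZMod 2, decide (z = 0) ≠ decide (z + 1 = 0) := by decide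
  exact key _

end Pool.Agent.Helper91.OF4.FI
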